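import Mathlib
import Pool.Agent.H652R2.Smz

/-!
# MP_4b0d2a_lc: (H) does not imply Borel's Conjecture

There is a notion of forcing `P` such that every condition forces that every strong measure zero
set of reals is meager-additive, and that Borel's Conjecture fails.

`P` is the product of a countably closed notion of forcing (adding a sequence of length `ω₁` of
functions) and the countable support iteration of Miller forcing of length `(2 ^ 𝔠)⁺`, presented
as a monoid of continuous maps of the product space. See `Pool.Agent.H652R2.Defs` for the
statements, and `Pool.Agent.Helper669.Forcing` for the forcing language.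
-/

namespace Pool.Agent.Results.MP_4b0d2a_lc.HWithoutBC

open Pool.Agent.Helper669.Forcing Pool.Agent.H652R2 Pool.Agent.H652R2.Defs

/-- There is a notion of forcing `P` such that every condition forces (H): every strong measure
zero set of reals is meager-additive, together with the negation of Borel's Conjecture: some
strong measure zero set of reals is uncountable. -/
theorem result : ∃ (P : Type) (_ : Preorder P), Nonempty P ∧
    ∀ p : P, p ∈ fand (StatementH P) (fnot (BorelConjecture P)) := by
  have hW := om_WW
  refine ⟨KK WW × Cond JJ, inferInstance, ?_, fun p =>
    ⟨forces_H big_JJ (card_KK hW) (SC_KK hW) p, forces_not_BC hW p⟩⟩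
  obtain ⟨w, -⟩ := hW.bd ∅ Set.countable_empty
  exact ⟨(⟨w, fun _ _ => 0⟩, 1)⟩

end Pool.Agent.Results.MP_4b0d2a_lc.HWithoutBC
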